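import Pool.Agent.L0h89.HT.Top
import Pool.Agent.L0h89.HT.AsmG

/-!
# The exact Hausdorff gauge of the half-plane exploration path of critical bond percolation

Critical bond percolation on `ℤ × ℕ`, the edges `[x, x + 1]` of the real axis open for `x < 0` and
closed for `x ≥ 0`. The exploration path starts next to the origin and keeps the open cluster `C_-`
of the negative half-axis on its left; `gam ω k` is its point after `k` steps (at distance `1/4`
from the edges at a vertex of `C_-`), and `curve n ω` is the path `n ^ (-4/7) γ(n t)`,
`0 ≤ t ≤ 1`, with law `lawH n`. Weak limits exist along a subsequence of every sequence `n → ∞`.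

There are universal constants `c, C > 0` such that for every weak limit `f`, almost surely, the
Hausdorff measure with the gauge function `r ^ (7/4) (log log (1/r)) ^ (1/8)` of the image `f '' S`
of EVERY set `S` of times is between `c |S|` and `C |S|`. In particular this measure is positive
and finite on all arcs, the natural time `|{s | f s ∈ E}|` is comparable with it on all plane sets
`E`, and the `7/4`-dimensional Hausdorff measure of the whole curve is zero.

The corresponding statement for the exploration path in a rectangle is in the starting files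
(`MP_216314_pr.HausdorffGauge`). It is transferred to the half-plane by a coupling on the lattice of
the half-plane path with the time reversal of the path in a rectangle (by duality and reflection,
`Pool.Agent.L0h89.HT.Cpl`): up to the first exit from a disc, every weak limit in the half-plane is
the reflected time reversal of a weak limit in a square of any size, with the same natural time
(`Pool.Agent.L0h89.HT.Top`). Steps of the transfer were formalised by helper37, helper76 and
helper83.

Definitions: `gauge` below; `Pool.Agent.H984R4.HN.HPDefs` (`Conf`, `perc`, `opn`, `step`, `path`,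
`place`, `gam`, `curve`), `Pool.Agent.H984R4.HN.FinalH` (`lawH`), `Pool.Agent.H984R4.NP.Model`
(`pl`, `clamp`). `MeasureTheory.Measure.mkMetric` is Mathlib's Hausdorff measure of a gauge function
of the diameter.
-/

set_option autoImplicit false

namespace Pool.Agent.Results.MP_6c8efb_pr.ExactGauge

open H984H MeasureTheory Filter Topology
open scoped ENNReal

/-- The gauge function `r ^ (7/4) (log log (1/r)) ^ (1/8)`. -/
noncomputable def gauge (r : ℝ≥0∞) : ℝ≥0∞ :=
  ENNReal.ofReal (r.toReal ^ (7/4 : ℝ) * Real.log (Real.log (1 / r.toReal)) ^ (1/8 : ℝ))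

theorem result : ∃ c C : ℝ, 0 < c ∧ 0 < C ∧
    (∀ φ : ℕ → ℕ, Tendsto φ atTop atTop → ∃ ψ : ℕ → ℕ, StrictMono ψ ∧
      ∃ μ : ProbabilityMeasure C(unitInterval, ℂ),
        Tendsto (fun i => lawH (φ (ψ i))) atTop (𝓝 μ)) ∧
    ∀ φ : ℕ → ℕ, Tendsto φ atTop atTop → ∀ μ : ProbabilityMeasure C(unitInterval, ℂ),
      Tendsto (fun i => lawH (φ i)) atTop (𝓝 μ) →
      ∀ᵐ f : C(unitInterval, ℂ) ∂(μ : Measure C(unitInterval, ℂ)),
        (∀ S : Set unitInterval,
          ENNReal.ofReal c * volume S ≤ Measure.mkMetric gauge (f '' S) ∧
          Measure.mkMetric gauge (f '' S) ≤ ENNReal.ofReal C * volume S) ∧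
        Measure.hausdorffMeasure (7/4) (Set.range f) = 0 := by
  obtain ⟨c, C, hc, hC, h⟩ := Pool.Agent.L0h89.HT.gau_lim Pool.Agent.L0h89.HT.tr1
  refine ⟨c, C, hc, hC, Pool.Agent.L0h89.HT.lim_ex, fun φ hφ μ hμ => ?_⟩
  filter_upwards [h μ ⟨φ, hφ, hμ⟩] with f ⟨g4, g5⟩
  refine ⟨fun S => ?_, g5⟩
  have := g4 S
  simp only [mul_one] at this
  exact this

end Pool.Agent.Results.MP_6c8efb_pr.ExactGauge
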