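import Pool.Agent.L0h89.HT.Top
import Pool.Agent.L0h89.HT.AsmP

/-!
# The extreme diameters of the pieces of given duration of the half-plane exploration path

Critical bond percolation on `ℤ × ℕ`, the edges `[x, x + 1]` of the real axis open for `x < 0` and
closed for `x ≥ 0`. The exploration path starts next to the origin and keeps the open cluster `C_-`
of the negative half-axis on its left; `gam ω k` is its point after `k` steps (at distance `1/4`
from the edges at a vertex of `C_-`), and `curve n ω` is the path `n ^ (-4/7) γ(n t)`,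
`0 ≤ t ≤ 1`, with law `lawH n`. Weak limits exist along a subsequence of every sequence `n → ∞`.

There are universal constants `c, C > 0` such that for every weak limit `f`, almost surely, for all
`a < b` and all small `h`: the diameters of the pieces `f [u, v]` of duration `v - u = h` are at
most `C h ^ (4/7) (log (1/h)) ^ (3/7)` and at least `c h ^ (4/7) (log (1/h)) ^ (-1/14)`, and both
orders are attained, up to the constants, by pieces with `[u, v] ⊆ [a, b]`. In particular
`h ^ (4/7) (log (1/h)) ^ (3/7)` is the exact order of the modulus of continuity of `f`, on every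
time interval.

The corresponding statements for the exploration path in a rectangle are in the starting files
(`MP_fe58d8_pr.ExactModulus`, `MP_216314_pr.SlowestPieces`), with constants which depend on the
rectangle. New here is the transfer to the half-plane: a coupling on the lattice of the half-plane
path with the time reversal of the path in a rectangle (by duality and reflection,
`Pool.Agent.L0h89.HT.Cpl`), which shows that, up to the first exit from a disc, every weak limit in
the half-plane is the reflected time reversal of a weak limit in a square of any size, with the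
same natural time (`Pool.Agent.L0h89.HT.Top`), and the scaling. Steps of the transfer were
formalised by helper37 and helper76.

Definitions: below; `Pool.Agent.H984R4.HN.HPDefs` (`Conf`, `perc`, `opn`, `step`, `path`, `place`,
`gam`, `curve`), `Pool.Agent.H984R4.HN.FinalH` (`lawH`), `Pool.Agent.H984R4.NP.Model` (`pl`,
`clamp`).
-/

set_option autoImplicit false

namespace Pool.Agent.Results.MP_6c8efb_pr.ExtremePieces

open H984H MeasureTheory Filter Topology

/-- `ω(h) = h ^ (4/7) (log (1/h)) ^ (3/7)` -/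
noncomputable def omega (h : ℝ) : ℝ := h ^ (4/7 : ℝ) * Real.log (1 / h) ^ (3/7 : ℝ)

/-- `χ(h) = h ^ (4/7) (log (1/h)) ^ (-1/14)` -/
noncomputable def chi (h : ℝ) : ℝ := h ^ (4/7 : ℝ) / Real.log (1 / h) ^ (1/14 : ℝ)

theorem result : ∃ c C : ℝ, 0 < c ∧ 0 < C ∧
    (∀ φ : ℕ → ℕ, Tendsto φ atTop atTop → ∃ ψ : ℕ → ℕ, StrictMono ψ ∧
      ∃ μ : ProbabilityMeasure C(unitInterval, ℂ),
        Tendsto (fun i => lawH (φ (ψ i))) atTop (𝓝 μ)) ∧
    ∀ φ : ℕ → ℕ, Tendsto φ atTop atTop → ∀ μ : ProbabilityMeasure C(unitInterval, ℂ),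
      Tendsto (fun i => lawH (φ i)) atTop (𝓝 μ) →
      ∀ᵐ f : C(unitInterval, ℂ) ∂(μ : Measure C(unitInterval, ℂ)),
        ∀ a b : unitInterval, a < b → ∀ᶠ h : ℝ in 𝓝[>] 0,
          (∀ u v : unitInterval, (v : ℝ) - u = h →
            c * chi h ≤ Metric.diam (f '' Set.Icc u v) ∧
            Metric.diam (f '' Set.Icc u v) ≤ C * omega h) ∧
          (∃ u v : unitInterval, a ≤ u ∧ v ≤ b ∧ (v : ℝ) - u = h ∧
            Metric.diam (f '' Set.Icc u v) ≤ C * chi h) ∧
          (∃ u v : unitInterval, a ≤ u ∧ v ≤ b ∧ (v : ℝ) - u = h ∧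
            c * omega h ≤ Metric.diam (f '' Set.Icc u v)) := by
  obtain ⟨c, C, hc, hC, h1⟩ := Pool.Agent.L0h89.HT.ext_lim Pool.Agent.L0h89.HT.tr2
  refine ⟨c, C, hc, hC, Pool.Agent.L0h89.HT.lim_ex, fun φ hφ μ hμ => ?_⟩
  filter_upwards [h1 μ ⟨φ, hφ, hμ⟩] with f ⟨k1, k2⟩ a b hab
  obtain ⟨x, hx, q1⟩ := k1 a b hab
  have hab' : (a : ℝ) < b := hab
  filter_upwards [k2.1, k2.2 a b hab,
    Ioo_mem_nhdsGT (lt_min (lt_min hx one_pos) (sub_pos.2 hab'))] with h p1 p2 p3
  have hhx : h < x := p3.2.trans_le ((min_le_left _ _).trans (min_le_left _ _))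
  have hh1 : h < 1 := p3.2.trans_le ((min_le_left _ _).trans (min_le_right _ _))
  have hhab : h < (b : ℝ) - a := p3.2.trans_le (min_le_right _ _)
  obtain ⟨⟨s, t, r1, r2, r3, r4, r5⟩, r6⟩ := q1 h p3.1 hhx
  obtain ⟨u', v', v1, v2, v3, v4, v5⟩ := p2
  simp only [mul_one, one_mul] at r4 r6 v4 p1
  have hω : 0 ≤ C * omega h := by
    have hlog : 0 ≤ Real.log (1 / h) :=
      Real.log_nonneg (by rw [le_div_iff₀ p3.1]; linarith)
    have := p3.1
    unfold omega
    positivity
  refine ⟨fun u v huv => ⟨p1 u v ?_ huv, ?_⟩, ⟨u', v', v1, v3, v4, v5⟩, ?_⟩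
  · show (u : ℝ) ≤ v
    have := p3.1
    linarith
  · refine Metric.diam_le_of_forall_dist_le hω ?_
    rintro _ ⟨y, hy, rfl⟩ _ ⟨z, hz, rfl⟩
    refine r6 y z ?_
    have hy1 : (u : ℝ) ≤ y := hy.1
    have hy2 : (y : ℝ) ≤ v := hy.2
    have hz1 : (u : ℝ) ≤ z := hz.1
    have hz2 : (z : ℝ) ≤ v := hz.2
    rw [abs_le]
    constructor <;> linarith
  · obtain ⟨u, v, w1, w2, w3, w4, w5⟩ :=
      Pool.Agent.L0h89.HT.ext_int r1 r2 r3 r4 hhab.le
    refine ⟨u, v, w1, w4, w5, r5.trans ?_⟩
    refine Metric.dist_le_diam_of_mem (isCompact_Icc.image f.continuous).isBounded ?_ ?_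
    · exact ⟨s, ⟨w2, r2.trans w3⟩, rfl⟩
    · exact ⟨t, ⟨w2.trans r2, w3⟩, rfl⟩

end Pool.Agent.Results.MP_6c8efb_pr.ExtremePieces
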