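import Pool.Agent.L0h89.HT.Top
import Pool.Agent.L0h89.HT.AsmF

/-!
# Fast times of the half-plane exploration path: dimension `1 - Θ(θ ^ (7/3))`

Critical bond percolation on `ℤ × ℕ`, the edges `[x, x + 1]` of the real axis open for `x < 0` and
closed for `x ≥ 0`. The exploration path starts next to the origin and keeps the open cluster `C_-`
of the negative half-axis on its left; `gam ω k` is its point after `k` steps (at distance `1/4`
from the edges at a vertex of `C_-`), and `curve n ω` is the path `n ^ (-4/7) γ(n t)`,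
`0 ≤ t ≤ 1`, with law `lawH n`. Weak limits exist along a subsequence of every sequence `n → ∞`.

A time `u` of the curve `f` is `θ`-fast if for arbitrarily small `h` there is a time `v` with
`|v - u| ≤ h` and `|f v - f u| ≥ θ h ^ (4/7) (log (1/h)) ^ (3/7)` (this is the order of the modulus
of continuity; at typical times the displacement has only the order
`h ^ (4/7) (log log (1/h)) ^ (3/7)`). There are universal constants `c`, `C`, `θ₀` such that for
every weak limit, almost surely, simultaneously for all `0 < θ ≤ θ₀` and all `s < t`, the `θ`-fast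
times in `[s, t]` have Hausdorff dimension between `1 - C θ ^ (7/3)` and `1 - c θ ^ (7/3)`, and
their images have Hausdorff dimension between `7/4 (1 - C θ ^ (7/3))` and
`7/4 (1 - c θ ^ (7/3))`. This is the analogue of the Orey-Taylor theorem on the fast points of the
Brownian motion.

The corresponding statement for the exploration path in a rectangle is in the starting files
(`MP_b3e76a_pr.FastTimes`). It is transferred to the half-plane by a coupling on the lattice of the
half-plane path with the time reversal of the path in a rectangle (by duality and reflection,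
`Pool.Agent.L0h89.HT.Cpl`): up to the first exit from a disc, every weak limit in the half-plane is
the reflected time reversal of a weak limit in a square of any size, with the same natural time
(`Pool.Agent.L0h89.HT.Top`). Steps of the transfer were formalised by helper37, helper60 and
helper76.

Definitions: `Fast` below; `Pool.Agent.H984R4.HN.HPDefs` (`Conf`, `perc`, `opn`, `step`, `path`,
`place`, `gam`, `curve`), `Pool.Agent.H984R4.HN.FinalH` (`lawH`), `Pool.Agent.H984R4.NP.Model`
(`pl`, `clamp`).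
-/

set_option autoImplicit false

namespace Pool.Agent.Results.MP_6c8efb_pr.FastTimes

open H984H MeasureTheory Filter Topology

/-- `u` is a `θ`-fast time of `f`: for arbitrarily small `h > 0` there is a time `v` with
`|v - u| ≤ h` and `|f v - f u| ≥ θ h ^ (4/7) (log (1/h)) ^ (3/7)`. -/
def Fast (θ : ℝ) (f : C(unitInterval, ℂ)) (u : unitInterval) : Prop :=
  ∃ᶠ h : ℝ in 𝓝[>] 0, ∃ v : unitInterval, |(v : ℝ) - u| ≤ h ∧
    θ * (h ^ (4/7 : ℝ) * Real.log (1 / h) ^ (3/7 : ℝ)) ≤ dist (f v) (f u)

theorem result : ∃ c C θ₀ : ℝ, 0 < c ∧ 0 < C ∧ 0 < θ₀ ∧ C * θ₀ ^ (7/3 : ℝ) < 1 ∧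
    (∀ φ : ℕ → ℕ, Tendsto φ atTop atTop → ∃ ψ : ℕ → ℕ, StrictMono ψ ∧
      ∃ μ : ProbabilityMeasure C(unitInterval, ℂ),
        Tendsto (fun i => lawH (φ (ψ i))) atTop (𝓝 μ)) ∧
    ∀ φ : ℕ → ℕ, Tendsto φ atTop atTop → ∀ μ : ProbabilityMeasure C(unitInterval, ℂ),
      Tendsto (fun i => lawH (φ i)) atTop (𝓝 μ) →
      ∀ᵐ f : C(unitInterval, ℂ) ∂(μ : Measure C(unitInterval, ℂ)),
        ∀ θ : ℝ, 0 < θ → θ ≤ θ₀ → ∀ s t : unitInterval, s < t →
          (ENNReal.ofReal (1 - C * θ ^ (7/3 : ℝ)) ≤ dimH {u | u ∈ Set.Icc s t ∧ Fast θ f u} ∧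
            dimH {u | u ∈ Set.Icc s t ∧ Fast θ f u} ≤
              ENNReal.ofReal (1 - c * θ ^ (7/3 : ℝ))) ∧
          (ENNReal.ofReal (7 / 4 * (1 - C * θ ^ (7/3 : ℝ))) ≤
              dimH (f '' {u | u ∈ Set.Icc s t ∧ Fast θ f u}) ∧
            dimH (f '' {u | u ∈ Set.Icc s t ∧ Fast θ f u}) ≤
              ENNReal.ofReal (7 / 4 * (1 - c * θ ^ (7/3 : ℝ)))) := by
  obtain ⟨c, C, θ₀, hc, hC, hθ₀, hCθ, h2⟩ :=
    Pool.Agent.L0h89.HT.fast_lim Pool.Agent.L0h89.HT.tr1
  refine ⟨c, C, θ₀, hc, hC, hθ₀, hCθ, Pool.Agent.L0h89.HT.lim_ex, fun φ hφ μ hμ => ?_⟩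
  filter_upwards [h2 μ ⟨φ, hφ, hμ⟩] with f g2 θ hθ hθ' s t hst
  have e1 : ∀ u, Fast θ f u ↔ Pool.Agent.L0h89.HT.Fast θ (f, 1) u := by
    intro u
    unfold Fast Pool.Agent.L0h89.HT.Fast
    simp only [one_mul]
  simp only [e1]
  rw [ENNReal.ofReal_mul (by norm_num), ← Pool.Agent.L0h89.HT.e74,
    ENNReal.ofReal_mul (by norm_num), ← Pool.Agent.L0h89.HT.e74]
  exact g2 θ hθ hθ' s t hst

end Pool.Agent.Results.MP_6c8efb_pr.FastTimes
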