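import Pool.Agent.L0h89.HT.Top
import Pool.Agent.L0h37.HT.D2
import Pool.Agent.L0h89.HT.KLO
import Pool.Agent.L0h89.HT.UNQ
import Pool.Agent.Results.MP_fe58d8_pr.NaturalCurve

/-!
# The half-plane exploration path from one rectangle

Critical bond percolation on `ℤ × ℕ`, the edges `[x, x + 1]` of the real axis open for `x < 0` and
closed for `x ≥ 0`. The exploration path starts next to the origin and keeps the open cluster `C_-`
of the negative half-axis on its left; `gam ω k` is its point after `k` steps (at distance `1/4`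
from the edges at a vertex of `C_-`), and `curve n ω` is the path `n ^ (-4/7) γ(n t)`,
`0 ≤ t ≤ 1`, with law `lawH n`.

`R` is an arbitrary rectangle `(-A, B) × (0, H)`, with the counterclockwise boundary arc from
`a = t + i H` to `b = 0` wired and the other one dual-wired; `R.law δ` is the law of the exploration
path on `δ ℤ²` from `a` to `b`, as a curve with constant speed, and of its natural time (the number
of steps times `δ ^ (7/4)`).

* Locality and reversibility: every weak limit `f` in the half-plane is coupled with a weak limit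
  `(g, T)` in `R` such that, for all times `s` before the exit of `f` from the disc of radius
  `r < lam * min (A, B, H)`, `f s` is `lam` times the reflection in the imaginary axis of
  `g (1 - s / (lam ^ (7/4) T))`: up to the exit from the disc, `f` is the reflected time reversal of
  the limit in `R`, scaled by `lam`, with the same natural time.
* If the laws `R.law δ` converge weakly, as `δ → 0`, for ONE rectangle `R`, then the laws `lawH n` of
  the half-plane exploration path converge weakly, as `n → ∞`.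

The lattice coupling (`Pool.Agent.L0h89.HT.Cpl`) uses the duality of the square lattice, which
exchanges the boundary conditions up to a lattice effect (the path in the half-plane may visit the
vertices of the positive half-axis; the extra steps are negligible). Steps were formalised by
helper37 and helper76.

Definitions: `refl` below; `Pool.Agent.H984R4.HN.HPDefs` (`Conf`, `perc`, `opn`, `step`, `path`,
`place`, `gam`, `curve`), `Pool.Agent.H984R4.HN.FinalH` (`lawH`), `Pool.Agent.H984R4.NP.Model`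
(`Rect`, `pos`, `clamp`, `pl`, `X`, `Rect.dm`, `Rect.curve`, `Rect.time`, `Rect.law`),
`Pool.Agent.H984R4.NP.Defs` (`Dm`, `Dm.edges`, `Dm.wir`, `Dm.cfg`, `Dm.walk`, `Dm.len`) and
`Pool.Agent.H984R3.Per.Defs` (states, `ae`, `mv`, `rt`, `nxt`, `orb`).
-/

set_option autoImplicit false

namespace Pool.Agent.Results.MP_6c8efb_pr.OneRectangle

open MeasureTheory Filter Topology
open H984H (lawH)
open H984N (Rect X)

/-- The reflection in the imaginary axis. -/
noncomputable def refl (z : ℂ) : ℂ := ⟨-z.re, z.im⟩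

/-- The curve `f` is, at all times before its exit from the disc of radius `r`, the reflected time
reversal of `p = (g, T)`, scaled by `lam`. -/
def Reversal (lam r : ℝ) (f : C(unitInterval, ℂ)) (p : X) : Prop :=
  ∀ s : unitInterval, (∀ v : unitInterval, v ≤ s → ‖f v‖ < r) →
    (s : ℝ) ≤ lam ^ (7/4 : ℝ) * p.2 ∧
    ∀ u : unitInterval, (u : ℝ) = 1 - s / (lam ^ (7/4 : ℝ) * p.2) →
      f s = (lam : ℂ) * refl (p.1 u)

theorem result (R : Rect) :
    (∀ φ : ℕ → ℕ, Tendsto φ atTop atTop → ∀ μ : ProbabilityMeasure C(unitInterval, ℂ),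
      Tendsto (fun i => lawH (φ i)) atTop (𝓝 μ) →
      ∀ lam r : ℝ, 0 < lam → r < lam * min R.A (min R.B R.H) →
        ∃ (δ : ℕ → ℝ) (ν : ProbabilityMeasure X)
          (P : ProbabilityMeasure (C(unitInterval, ℂ) × X)),
          (∀ i, 0 < δ i) ∧ Tendsto δ atTop (𝓝 0) ∧
          Tendsto (fun i => R.law (δ i)) atTop (𝓝 ν) ∧
          (P : Measure (C(unitInterval, ℂ) × X)).map Prod.fst = (μ : Measure _) ∧
          (P : Measure (C(unitInterval, ℂ) × X)).map Prod.snd = (ν : Measure X) ∧
          ∀ᵐ q ∂(P : Measure (C(unitInterval, ℂ) × X)), 0 < q.2.2 ∧ Reversal lam r q.1 q.2) ∧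
    ((∃ ν : ProbabilityMeasure X, Tendsto R.law (𝓝[>] 0) (𝓝 ν)) →
      ∃ μ : ProbabilityMeasure C(unitInterval, ℂ), Tendsto lawH atTop (𝓝 μ)) := by
  obtain ⟨⟨c, hc, hL⟩, ⟨C, hC, hU⟩, -⟩ := Pool.Agent.Results.MP_6c8efb_pr.Displacement.inputs
  have hJ : Pool.Agent.L0h89.HT.S_JNTR := Pool.Agent.L0h37.HT.s_jntr
    Pool.Agent.L0h89.HT.s_cpl Pool.Agent.L0h76.HT.s_KCL hc hC hL hU
  have hK : Pool.Agent.L0h89.HT.S_KLO := Pool.Agent.L0h89.HT.s_KLO
  have hpos : ∀ ν : ProbabilityMeasure X, Pool.Agent.L0h89.HT.IsLimN R ν →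
      ∀ᵐ p ∂(ν : Measure X), 0 < p.2 := by
    rintro ν ⟨δ, hδ, hlim, hν⟩
    filter_upwards [(Pool.Agent.Results.MP_fe58d8_pr.NaturalCurve.result R).2.2.2 δ hδ hlim ν hν]
      with p hp
    exact hp.1
  refine ⟨fun φ hφ μ hμ lam r hlam hr => ?_, ?_⟩
  · have hρ : 0 < min R.A (min R.B R.H) := lt_min R.hA (lt_min R.hB R.hH)
    obtain ⟨P, h1, ⟨ν, hν, h2⟩, h3⟩ := hJ R (min R.A (min R.B R.H)) lam r hρ (min_le_left _ _)
      ((min_le_right _ _).trans (min_le_left _ _)) ((min_le_right _ _).trans (min_le_right _ _))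
      hlam hr μ ⟨φ, hφ, hμ⟩
    have hp := hpos ν hν
    obtain ⟨δ, hδ, hlim, hν'⟩ := hν
    refine ⟨δ, ν, P, hδ, hlim, hν', h1, h2, ?_⟩
    rw [← h2] at hp
    have a1 : ∀ᵐ q ∂(P : Measure (C(unitInterval, ℂ) × X)), 0 < q.2.2 :=
      ae_of_ae_map measurable_snd.aemeasurable hp
    have a2 : ∀ᵐ q ∂(P : Measure (C(unitInterval, ℂ) × X)),
        ∀ m : ℕ, q ∈ Pool.Agent.L0h89.HT.K r lam (1 / ((m : ℝ) + 1)) := by
      rw [ae_all_iff]
      intro m
      exact h3 _ (by positivity)
    filter_upwards [a1, a2] with q q1 q2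
    exact ⟨q1, fun s hs => hK r lam q hlam q1 q2 s hs⟩
  · rintro ⟨ν, hν⟩
    have hun : ∀ ν' : ProbabilityMeasure X, Pool.Agent.L0h89.HT.IsLimN R ν' → ν' = ν := by
      rintro ν' ⟨δ, hδ, hlim, hν'⟩
      have h1 : Tendsto δ atTop (𝓝[>] 0) :=
        tendsto_nhdsWithin_iff.2 ⟨hlim, Eventually.of_forall hδ⟩
      exact tendsto_nhds_unique hν' (hν.comp h1)
    have hμ := Pool.Agent.L0h89.HT.s_unq hJ R hpos
      (fun ν1 ν2 h1 h2 => (hun ν1 h1).trans (hun ν2 h2).symm)
    obtain ⟨ψ, hψ, μ, hlim⟩ := Pool.Agent.L0h89.HT.lim_ex id tendsto_id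
    refine ⟨μ, tendsto_of_subseq_tendsto fun ns hns => ?_⟩
    obtain ⟨ψ', hψ', μ', hlim'⟩ := Pool.Agent.L0h89.HT.lim_ex ns hns
    refine ⟨ψ', ?_⟩
    have e : μ' = μ := hμ μ' μ ⟨fun i => ns (ψ' i), hns.comp hψ'.tendsto_atTop, hlim'⟩
      ⟨fun i => id (ψ i), hψ.tendsto_atTop, hlim⟩
    rw [← e]
    exact hlim'

end Pool.Agent.Results.MP_6c8efb_pr.OneRectangle
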